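import Pool.Agent.Lib.BcrR.RChain
import Pool.Agent.Lib.BcrK.KTight2
import Pool.Agent.Lib.BcrU.GTwo

/-!
The integrality gap of the bidirected cut relaxation is at most `1.8301`.
-/

namespace BcrR

open Finset BcrU Bcr3

variable {V : Type} [Fintype V] [DecidableEq V] {G : SimpleGraph V} {c : Sym2 V → ℝ}

omit [DecidableEq V] in
theorem exists_delta (hc : ∀ e, 0 ≤ c e) : ∃ δ : ℝ, 0 < δ ∧ ∀ a, c a = 0 ∨ δ ≤ c a := by
  classical
  by_cases h : ∃ a, c a ≠ 0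
  · obtain ⟨a1, ha1⟩ := h
    have hne : Nonempty {a : Sym2 V // c a ≠ 0} := ⟨⟨a1, ha1⟩⟩
    obtain ⟨a0, ha0⟩ := Finite.exists_min (fun a : {a : Sym2 V // c a ≠ 0} => c a.1)
    refine ⟨c a0.1, lt_of_le_of_ne (hc _) (Ne.symm a0.2), fun a => ?_⟩
    by_cases ha : c a = 0
    · exact Or.inl ha
    · exact Or.inr (ha0 ⟨a, ha⟩)
  · push Not at h
    exact ⟨1, one_pos, fun a => Or.inl (h a)⟩

theorem exists_K {κ : Type} [Finite κ] (f : κ → κ → ℝ) {ε : ℝ} (hε : 0 < ε) :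
    ∃ K : ℕ, ∀ i j, f i j ≤ K * ε := by
  obtain ⟨b, hb⟩ := (Set.finite_range (fun p : κ × κ => f p.1 p.2)).bddAbove
  refine ⟨⌈b / ε⌉₊, fun i j => ?_⟩
  have h1 : f i j ≤ b := hb ⟨(i, j), rfl⟩
  have h2 : b / ε ≤ ⌈b / ε⌉₊ := Nat.le_ceil _
  rw [div_le_iff₀ hε] at h2
  exact h1.trans h2

theorem val_nonneg (hc : ∀ e, 0 ≤ c e) {R : Finset V} {r : V} {x : V → V → ℝ}
    (hx : Feasible G R r x) : 0 ≤ ∑ u, ∑ v, c s(u, v) * x u v :=
  Finset.sum_nonneg fun u _ => Finset.sum_nonneg fun v _ => mul_nonneg (hc _) (hx.nonneg u v)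

/-- the inverse of the value of the design -/
noncomputable def bb (k : ℕ) : ℝ :=
  if k = 2 then 2 else 1 / beta (k - 1) (3 * k / 8) (BcrK.th (k - 1))

theorem upper_eps (hc : ∀ e, 0 ≤ c e) {R : Finset V} {r : V} (hr : r ∈ R)
    (hreach : ∀ v ∈ R, G.Reachable r v) {x : V → V → ℝ} (hx : Feasible G R r x) {δ : ℝ}
    (hδ : 0 < δ) (hcm : ∀ a, c a = 0 ∨ δ ≤ c a) {ε : ℝ} (hε : 0 < ε) :
    OPT G c R ≤ 1.8301 * ((1 + 2 * ε / δ) * (∑ u, ∑ v, c s(u, v) * x u v)) +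
      ε * R.card * (1 / 2 + (∑ k ∈ Ico (3 : ℕ) 50, 1 / ((k : ℝ) * ((k : ℝ) - 1))) + 1 / 49) := by
  have hval := val_nonneg hc hx
  obtain ⟨A, hA⟩ : ∃ A : ℝ, A = (1 + 2 * ε / δ) * ∑ u, ∑ v, c s(u, v) * x u v := ⟨_, rfl⟩
  have hA0 : 0 ≤ A := by
    rw [hA]
    have : 0 ≤ 2 * ε / δ := by positivity
    exact mul_nonneg (by linarith) hval
  obtain ⟨K, hK0⟩ := exists_K (κ := {v // v ∈ R}) (fun i j => dst G c i.1 j.1) hε
  have hK : ∀ i j : {v // v ∈ R}, dst G c i.1 j.1 ≤ K * ε := hK0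
  clear hK0
  have hcard : (Fintype.card {v // v ∈ R} : ℝ) = R.card := by
    rw [Fintype.card_coe]
  have h2 := M_empty_le (ι := {v // v ∈ R}) (t := fun i => i.1) (i0 := ⟨r, hr⟩) hc hx
    (fun i => i.2) (fun i => hreach i.1 i.2) rfl hε hK hδ hcm
  rw [hcard, ← hA] at h2
  have hmain := chain (ι := {v // v ∈ R}) (t := fun i => i.1) hc hr
    (fun v hv => ⟨⟨v, hv⟩, rfl⟩) (fun i => hreach i.1 i.2) hε hK (N := 50) (by norm_num)
    (fun k => bb k * A + ε * R.card)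
    (by
      show _ ≤ bb 2 * A + ε * R.card
      have : bb 2 = 2 := by rw [bb, if_pos rfl]
      rw [this]
      linarith)
    (by
      intro k hk3 hk50 lev hU hT
      have hm : 0 < k - 1 := by omega
      have hq : 3 * k / 8 ≤ k - 1 := by omega
      have hk1 : k - 1 + 1 = k := by omega
      have h := BcrK.tight_bound (ι := {v // v ∈ R}) (t := fun i => i.1) (i0 := ⟨r, hr⟩) hc hx
        (fun i => i.2) (fun i => hreach i.1 i.2) rfl hε hm hq hU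
        (by
          rw [hk1]
          exact hT) hδ hcm
      rw [hcard, ← hA] at h
      have hbp := BcrK.beta_pos hm hq
      have hb : bb k = 1 / beta (k - 1) (3 * k / 8) (BcrK.th (k - 1)) := by
        rw [bb, if_neg (by omega)]
      show _ ≤ bb k * A + ε * R.card
      rw [hb]
      have h3 : mu lev K ε univ - ε * (R.card : ℝ) ≤
          A / beta (k - 1) (3 * k / 8) (BcrK.th (k - 1)) := by
        rw [le_div_iff₀ hbp]
        linarith
      have h4 : A / beta (k - 1) (3 * k / 8) (BcrK.th (k - 1)) =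
          1 / beta (k - 1) (3 * k / 8) (BcrK.th (k - 1)) * A := by ring
      linarith)
  rw [Finset.sum_eq_sum_Ico_succ_bot (by norm_num : 2 < 50)] at hmain
  have hb2 : bb 2 = 2 := by rw [bb, if_pos rfl]
  have hb50 : bb 50 = 1 / beta 49 18 (BcrK.th 49) := by
    rw [bb, if_neg (by norm_num)]
  have hnum := BcrK.num50
  have hsum : ∑ k ∈ Ico (2 + 1) 50, (bb k * A + ε * R.card) / ((k : ℝ) * ((k : ℝ) - 1)) =
      (∑ k ∈ Ico 3 50, 1 / beta (k - 1) (3 * k / 8) (BcrK.th (k - 1)) /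
        ((k : ℝ) * ((k : ℝ) - 1))) * A +
      ε * R.card * ∑ k ∈ Ico (3 : ℕ) 50, 1 / ((k : ℝ) * ((k : ℝ) - 1)) := by
    rw [Finset.sum_mul, Finset.mul_sum, ← Finset.sum_add_distrib]
    refine Finset.sum_congr rfl fun k hk => ?_
    have hk3 := (Finset.mem_Ico.1 hk).1
    rw [bb, if_neg (by omega)]
    ring
  rw [← hA]
  rw [hsum, hb2, hb50] at hmain
  have h5 := mul_le_mul_of_nonneg_right hnum hA0
  have e1 : (2 * A + ε * (R.card : ℝ)) / (((2 : ℕ) : ℝ) * (((2 : ℕ) : ℝ) - 1)) =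
      A + ε * R.card * (1 / 2) := by
    push_cast
    ring
  have e2 : (1 / beta 49 18 (BcrK.th 49) * A + ε * (R.card : ℝ)) / (((50 : ℕ) : ℝ) - 1) =
      1 / beta 49 18 (BcrK.th 49) / 49 * A + ε * R.card * (1 / 49) := by
    push_cast
    ring
  rw [e1, e2] at hmain
  nlinarith [hmain, h5]

theorem upper (hc : ∀ e, 0 ≤ c e) {R : Finset V} {r : V} (hr : r ∈ R)
    (hreach : ∀ v ∈ R, G.Reachable r v) {x : V → V → ℝ} (hx : Feasible G R r x) :
    OPT G c R ≤ 1.8301 * ∑ u, ∑ v, c s(u, v) * x u v := by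
  have hval := val_nonneg hc hx
  obtain ⟨δ, hδ, hcm⟩ := exists_delta hc
  have hall := fun (ε : ℝ) (hε : 0 < ε) => upper_eps hc hr hreach hx hδ hcm hε
  obtain ⟨val, hvaldef⟩ : ∃ val : ℝ, val = ∑ u, ∑ v, c s(u, v) * x u v := ⟨_, rfl⟩
  rw [← hvaldef] at hval hall ⊢
  have hC : 0 ≤ ∑ k ∈ Ico (3 : ℕ) 50, 1 / ((k : ℝ) * ((k : ℝ) - 1)) := by
    refine Finset.sum_nonneg fun k hk => ?_
    have hk3 : (3 : ℝ) ≤ (k : ℝ) := by exact_mod_cast (Finset.mem_Ico.1 hk).1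
    have : 0 < (k : ℝ) * ((k : ℝ) - 1) := mul_pos (by linarith) (by linarith)
    positivity
  obtain ⟨C, hCd⟩ : ∃ C : ℝ,
      C = 1 / 2 + (∑ k ∈ Ico (3 : ℕ) 50, 1 / ((k : ℝ) * ((k : ℝ) - 1))) + 1 / 49 := ⟨_, rfl⟩
  rw [← hCd] at hall
  have hC0 : 0 ≤ C := by rw [hCd]; linarith
  obtain ⟨D, hD⟩ : ∃ D : ℝ, D = 1.8301 * (2 / δ) * val + R.card * C := ⟨_, rfl⟩
  have hD0 : 0 ≤ D := by
    rw [hD]
    positivity
  refine le_of_forall_pos_le_add fun η hη => ?_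
  have hε : 0 < η / (D + 1) := by positivity
  have h := hall _ hε
  have h1 : 1.8301 * ((1 + 2 * (η / (D + 1)) / δ) * val) + η / (D + 1) * R.card * C =
      1.8301 * val + η / (D + 1) * D := by
    rw [hD]
    ring
  rw [h1] at h
  have h2 : η / (D + 1) * D ≤ η := by
    rw [div_mul_eq_mul_div, div_le_iff₀ (by positivity)]
    nlinarith
  linarith

end BcrR
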