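import Pool.Agent.Lib.BcrR.RDef

/-!
MODULE RRank (220 lines). The rank function of relations on a finite set.

`ncl r` = number of classes of `EqvGen r`. (`Relation.EqvGen.is_equivalence`, `Relation.EqvGen.mono`; `(r ⊔ x) a b` is
definitionally `r a b ∨ x a b`.)
* `ncl_mono`: `EqvGen r ≤ EqvGen r'` (`h` and transitivity), the map of classes is surjective: for example choose for each class of
  `r'` a point, its class for `r` (injective); or use `image` of the class map. `ncl_congr` follows.
* `ncl_pair`: adding the single pair `(a,b)`: `EqvGen (r ⊔ {(a,b)}) i j ↔ E i j ∨ (E i a ∧ E b j) ∨ (E i b ∧ E a j)` with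
  `E = EqvGen r`. If `E a b` nothing changes; otherwise exactly the two classes of `a` and `b` are merged.
* `ncl_submod`: first for `x` = a finite set `P` of pairs, induction on `P`: with `f r = ncl r - ncl (r ⊔ {p}) ∈ {0,1}`,
  `f r = 0 ↔ EqvGen r p.1 p.2` (`ncl_pair`), so `f (r' ⊔ P) ≤ f (r ⊔ P)` since `EqvGen (r ⊔ P) ≤ EqvGen (r' ⊔ P)`. Every relation
  on a finite type is such a finite set (`univ.filter`).
* `ncl_pos`: there is at least one class. `ncl_le_card`: `card_image_le`.

The proofs below use linear algebra: `ncl r` is the dimension of the space of the functions `ι → ℚ` which are constant on the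
classes.
-/

namespace BcrR

open Finset

variable {ι : Type} [Fintype ι]

/-- the functions which are constant on the classes -/
private def rRank_vs (r : ι → ι → Prop) : Submodule ℚ (ι → ℚ) where
  carrier := {f | ∀ a b, r a b → f a = f b}
  zero_mem' := fun _ _ _ => rfl
  add_mem' := fun {f g} hf hg a b h => by
    show f a + g a = f b + g b
    rw [hf a b h, hg a b h]
  smul_mem' := fun c f hf a b h => by
    show c • f a = c • f b
    rw [hf a b h]

private theorem rRank_eqv {r : ι → ι → Prop} {f : ι → ℚ} (hf : f ∈ rRank_vs r) {a b : ι}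
    (h : Relation.EqvGen r a b) : f a = f b := by
  induction h with
  | rel _ _ h => exact hf _ _ h
  | refl _ => rfl
  | symm _ _ _ ih => exact ih.symm
  | trans _ _ _ _ _ ih1 ih2 => exact ih1.trans ih2

private noncomputable def rRank_equiv (r : ι → ι → Prop) :
    rRank_vs r ≃ₗ[ℚ] (Quotient (Relation.EqvGen.setoid r) → ℚ) where
  toFun f := Quotient.lift f.1 fun _ _ h => rRank_eqv f.2 h
  map_add' f g := by
    ext q
    induction q using Quotient.inductionOn with
    | _ a => rfl
  map_smul' c f := by
    ext q
    induction q using Quotient.inductionOn with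
    | _ a => rfl
  invFun g := ⟨fun i => g (Quotient.mk _ i), fun a b h =>
    congrArg g (Quotient.sound (Relation.EqvGen.rel a b h))⟩
  left_inv f := by
    ext i
    rfl
  right_inv g := by
    ext q
    induction q using Quotient.inductionOn with
    | _ a => rfl

open Classical in
private theorem rRank_eq (r : ι → ι → Prop) : ncl r = Module.finrank ℚ (rRank_vs r) := by
  rw [(rRank_equiv r).finrank_eq, Module.finrank_fintype_fun_eq_card]
  let g : Quotient (Relation.EqvGen.setoid r) → Finset ι := Quotient.lift
    (fun i => univ.filter fun j => Relation.EqvGen r i j) fun a b h => by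
      ext j
      simp only [mem_filter, mem_univ, true_and]
      exact ⟨fun h' => (Relation.EqvGen.symm _ _ h).trans _ _ _ h', fun h' => h.trans _ _ _ h'⟩
  have hg : Function.Injective g := by
    intro q q'
    induction q using Quotient.inductionOn with
    | _ a =>
      induction q' using Quotient.inductionOn with
      | _ b =>
        intro h
        have h1 : b ∈ g (Quotient.mk _ b) := by
          show b ∈ univ.filter fun j => Relation.EqvGen r b j
          simp only [mem_filter, mem_univ, true_and]
          exact Relation.EqvGen.refl b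
        rw [← h] at h1
        have h2 : b ∈ univ.filter fun j => Relation.EqvGen r a j := h1
        simp only [mem_filter, mem_univ, true_and] at h2
        exact Quotient.sound h2
  have h1 : ((univ : Finset ι).image fun i => univ.filter fun j => Relation.EqvGen r i j) =
      (univ : Finset (Quotient (Relation.EqvGen.setoid r))).image g := by
    ext s
    simp only [mem_image, mem_univ, true_and]
    constructor
    · rintro ⟨i, rfl⟩
      exact ⟨Quotient.mk _ i, rfl⟩
    · rintro ⟨q, rfl⟩
      induction q using Quotient.inductionOn with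
      | _ a => exact ⟨a, rfl⟩
  unfold ncl
  rw [h1, card_image_of_injective _ hg, card_univ]

private theorem rRank_le {r r' : ι → ι → Prop} (h : ∀ a b, r a b → Relation.EqvGen r' a b) :
    rRank_vs r' ≤ rRank_vs r := fun _ hf a b hab => rRank_eqv hf (h a b hab)

private theorem rRank_sup (r x : ι → ι → Prop) : rRank_vs (r ⊔ x) = rRank_vs r ⊓ rRank_vs x := by
  ext f
  constructor
  · intro h
    exact ⟨fun a b hab => h a b (Or.inl hab), fun a b hab => h a b (Or.inr hab)⟩
  · rintro ⟨h1, h2⟩ a b (h | h)
    · exact h1 a b h
    · exact h2 a b h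

theorem ncl_mono {r r' : ι → ι → Prop} (h : ∀ a b, r a b → Relation.EqvGen r' a b) :
    ncl r' ≤ ncl r := by
  rw [rRank_eq, rRank_eq]
  exact Submodule.finrank_mono (rRank_le h)

theorem ncl_congr {r r' : ι → ι → Prop} (h : ∀ a b, r a b → Relation.EqvGen r' a b)
    (h' : ∀ a b, r' a b → Relation.EqvGen r a b) : ncl r' = ncl r :=
  le_antisymm (ncl_mono h) (ncl_mono h')

theorem ncl_pair (r : ι → ι → Prop) (a b : ι) :
    (Relation.EqvGen r a b → ncl (r ⊔ fun x y => x = a ∧ y = b) = ncl r) ∧
    (¬ Relation.EqvGen r a b → ncl (r ⊔ fun x y => x = a ∧ y = b) + 1 = ncl r) := by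
  classical
  constructor
  · intro h
    refine ncl_congr (r := r) (r' := r ⊔ fun x y => x = a ∧ y = b) ?_ ?_
    · intro x y hxy
      exact Relation.EqvGen.rel _ _ (Or.inl hxy)
    · rintro x y (hxy | ⟨rfl, rfl⟩)
      · exact Relation.EqvGen.rel _ _ hxy
      · exact h
  · intro h
    rw [rRank_eq, rRank_eq, rRank_sup]
    -- the functional `f a - f b`
    let L : rRank_vs r →ₗ[ℚ] ℚ :=
      ((LinearMap.proj a : (ι → ℚ) →ₗ[ℚ] ℚ) - LinearMap.proj b).comp (rRank_vs r).subtype
    have hker : (LinearMap.ker L).map (rRank_vs r).subtype =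
        rRank_vs r ⊓ rRank_vs (fun x y => x = a ∧ y = b) := by
      ext f
      simp only [Submodule.mem_map, LinearMap.mem_ker]
      constructor
      · rintro ⟨g, hg, rfl⟩
        refine ⟨g.2, ?_⟩
        rintro x y ⟨rfl, rfl⟩
        have : g.1 x - g.1 y = 0 := hg
        exact sub_eq_zero.mp this
      · rintro ⟨h1, h2⟩
        refine ⟨⟨f, h1⟩, ?_, rfl⟩
        show f a - f b = 0
        exact sub_eq_zero.mpr (h2 a b ⟨rfl, rfl⟩)
    have hrange : LinearMap.range L = ⊤ := by
      rw [LinearMap.range_eq_top]
      apply LinearMap.surjective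
      intro h0
      have hmem : (fun i => if Relation.EqvGen r a i then (1 : ℚ) else 0) ∈ rRank_vs r := by
        intro x y hxy
        have hE := Relation.EqvGen.rel _ _ hxy
        by_cases hx : Relation.EqvGen r a x
        · have hy := hx.trans _ _ _ hE
          show (if Relation.EqvGen r a x then (1 : ℚ) else 0) =
            if Relation.EqvGen r a y then (1 : ℚ) else 0
          rw [if_pos hx, if_pos hy]
        · have hy : ¬ Relation.EqvGen r a y := fun hy => hx (hy.trans _ _ _ (hE.symm _ _))
          show (if Relation.EqvGen r a x then (1 : ℚ) else 0) =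
            if Relation.EqvGen r a y then (1 : ℚ) else 0
          rw [if_neg hx, if_neg hy]
      have h1 : L ⟨_, hmem⟩ = 0 := by rw [h0]; rfl
      have h2 : (if Relation.EqvGen r a a then (1 : ℚ) else 0) -
          (if Relation.EqvGen r a b then (1 : ℚ) else 0) = 0 := h1
      rw [if_pos (Relation.EqvGen.refl a), if_neg h] at h2
      norm_num at h2
    have h3 := LinearMap.finrank_range_add_finrank_ker L
    rw [hrange, finrank_top, Module.finrank_self] at h3
    have h4 : Module.finrank ℚ ((LinearMap.ker L).map (rRank_vs r).subtype) =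
        Module.finrank ℚ (LinearMap.ker L) :=
      LinearEquiv.finrank_eq (Submodule.equivSubtypeMap _ _).symm
    rw [← hker, h4]
    omega

theorem ncl_submod {r r' : ι → ι → Prop} (h : ∀ a b, r a b → Relation.EqvGen r' a b)
    (x : ι → ι → Prop) : ncl r' + ncl (r ⊔ x) ≤ ncl r + ncl (r' ⊔ x) := by
  rw [rRank_eq, rRank_eq, rRank_eq, rRank_eq, rRank_sup, rRank_sup]
  have h1 := Submodule.finrank_sup_add_finrank_inf_eq (rRank_vs r') (rRank_vs r ⊓ rRank_vs x)
  have h2 : Module.finrank ℚ (rRank_vs r' ⊔ rRank_vs r ⊓ rRank_vs x : Submodule ℚ (ι → ℚ)) ≤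
      Module.finrank ℚ (rRank_vs r) :=
    Submodule.finrank_mono (sup_le (rRank_le h) inf_le_left)
  have h3 : Module.finrank ℚ (rRank_vs r' ⊓ (rRank_vs r ⊓ rRank_vs x) : Submodule ℚ (ι → ℚ)) ≤
      Module.finrank ℚ (rRank_vs r' ⊓ rRank_vs x : Submodule ℚ (ι → ℚ)) :=
    Submodule.finrank_mono (inf_le_inf_left _ inf_le_right)
  omega

theorem ncl_pos [Nonempty ι] (r : ι → ι → Prop) : 1 ≤ ncl r := by
  classical
  unfold ncl
  exact card_pos.mpr (univ_nonempty.image _)

theorem ncl_le_card (r : ι → ι → Prop) : ncl r ≤ Fintype.card ι := by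
  classical
  unfold ncl
  exact card_image_le

end BcrR
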