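import Pool.Agent.Lib.BcrU.DefsG

/-!
The two phases of Berman and Ramaiyer in the form of levels: definitions.
-/

namespace BcrR

open Finset BcrU Bcr3

variable {ι : Type} {V : Type}

open Classical in
/-- number of classes of the equivalence relation generated by `r` -/
noncomputable def ncl [Fintype ι] (r : ι → ι → Prop) : ℕ :=
  ((univ : Finset ι).image fun i => univ.filter fun j => Relation.EqvGen r i j).card

/-- the pairs of level at most `l` -/
def pl (lev : ι → ι → ℕ) (l : ℕ) : ι → ι → Prop := fun a b => lev a b ≤ l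

/-- the pairs which are connected by `Y` -/
def py (G : SimpleGraph V) (t : ι → V) (Y : Finset (Sym2 V)) : ι → ι → Prop :=
  fun a b => conn G Y (t a) (t b)

/-- the pairs of `S` of level at most `l` -/
def ps (S : Finset ι) (lev : ι → ι → ℕ) (l : ℕ) : ι → ι → Prop :=
  fun a b => a ∈ S ∧ b ∈ S ∧ lev a b ≤ l

/-- all pairs of `S` -/
def pall (S : Finset ι) : ι → ι → Prop := fun a b => a ∈ S ∧ b ∈ S

/-- the edges of the tree of `S` are lowered by one level -/
noncomputable def lowr (lev : ι → ι → ℕ) (S : Finset ι) (i j : ι) : ℕ :=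
  sInf {l : ℕ | lev i j ≤ l ∨ ∃ a ∈ S, ∃ b ∈ S, lev i a ≤ l ∧ lev b j ≤ l ∧ lev a b ≤ l + 1}

/-- cost of the purchase of `Y` and of the completion with the prices given by `lev` -/
noncomputable def Fv [Fintype ι] (G : SimpleGraph V) (c : Sym2 V → ℝ) (t : ι → V) (K : ℕ)
    (ε : ℝ) (lev : ι → ι → ℕ) (Y : Finset (Sym2 V)) : ℝ :=
  ec c Y + ε * ∑ l ∈ range K, ((ncl (pl lev l ⊔ py G t Y) : ℝ) - 1)

/-- all components with at most `k` terminals are tight up to `ε` -/
def Tight [Fintype ι] [DecidableEq ι] (G : SimpleGraph V) (c : Sym2 V → ℝ) (t : ι → V) (K : ℕ)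
    (ε : ℝ) (lev : ι → ι → ℕ) (k : ℕ) : Prop :=
  ∀ S : Finset ι, S.Nonempty → S.card ≤ k → ∀ Y : Finset (Sym2 V),
    (∀ i ∈ S, ∀ j ∈ S, conn G Y (t i) (t j)) → mu lev K ε S ≤ ec c Y + ε

end BcrR
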