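import Pool.Agent.Lib.BcrR.RKap
import Pool.Agent.Lib.BcrU.GKru

/-!
MODULE RStart (140 lines). The start and the end of the chain.

* `start`: `kruskal` gives `OPT ≤ ec c Y + MM G c t K ε Y`, `MM Y = ε ∑_{l<K} (kap (levOf (DD G c t Y) ε) l univ - 1)` and
  `kap (levOf (DD Y) ε) l univ = ncl (pl (levOf (DD Y) ε) l) ≤ ncl (pl lev0 l ⊔ py G t Y)` (`ncl_pl`, `ncl_mono`, `levOf_ult`): if
  `lev0 a b ≤ l` then `levOf (DD Y) ε a b ≤ l` (`levOf_anti`, `DD Y ≤ DD ∅` by `dst_mono`, `cY_anti`; the terminals are mutually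
  reachable through `r`), and if `conn G Y (t a) (t b)` then `DD Y a b ≤ 0` (`dst_le`, `wc_cY_zero`), so `levOf = 0` (`levOf_le` with
  `k = 0`).
* `Fv_empty_le`: `ncl (pl lev l ⊔ py G t ∅) ≤ ncl (pl lev l) = kap lev l univ` (`ncl_mono`, `ncl_pl`), `ec c ∅ = 0`.
-/

namespace BcrR

open Finset BcrU Bcr3

variable {V : Type} {G : SimpleGraph V} {c : Sym2 V → ℝ} {ι : Type} [Fintype ι] [DecidableEq ι]
  {t : ι → V} {K : ℕ} {ε : ℝ}

theorem start [Fintype V] [DecidableEq V] (hc : ∀ e, 0 ≤ c e) {R : Finset V} {r : V}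
    (hr : r ∈ R) (hsurj : ∀ v ∈ R, ∃ i, t i = v) (ht : ∀ i, G.Reachable r (t i)) (hε : 0 < ε)
    (hK : ∀ i j, dst G c (t i) (t j) ≤ K * ε) (Y : Finset (Sym2 V)) :
    OPT G c R ≤ Fv G c t K ε (levOf (DD G c t ∅) ε) Y := by
  have hreach : ∀ i j, G.Reachable (t i) (t j) := fun i j => (ht i).symm.trans (ht j)
  have hle : ∀ i j, DD G c t Y i j ≤ DD G c t ∅ i j := fun i j =>
    dst_mono (cY_nonneg hc Y) (cY_nonneg hc ∅) (cY_anti hc (empty_subset Y)) (hreach i j)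
  have hK0 : ∀ i j, DD G c t ∅ i j ≤ K * ε := by
    intro i j
    have := hK i j
    unfold DD
    rwa [cY_empty]
  have hKY : ∀ i j, DD G c t Y i j ≤ K * ε := fun i j => (hle i j).trans (hK0 i j)
  have hsY : ∀ i j, DD G c t Y i j = DD G c t Y j i := fun i j => dst_symm _ _
  have hU : Ult K (levOf (DD G c t Y) ε) := levOf_ult hε hsY hKY
  refine (kruskal hc hr hsurj ht hε hK Y).trans ?_
  unfold MM mu Fv
  have hmain : ∀ l, kap (levOf (DD G c t Y) ε) l univ ≤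
      ncl (pl (levOf (DD G c t ∅) ε) l ⊔ py G t Y) := by
    intro l
    rw [← ncl_pl hU]
    apply ncl_mono
    intro a b hab
    apply Relation.EqvGen.rel
    show levOf (DD G c t Y) ε a b ≤ l
    rcases hab with hab | hab
    · exact (levOf_anti hε hK0 hle a b).trans hab
    · obtain ⟨w, hw⟩ := hab
      have h0 : DD G c t Y a b ≤ ((0 : ℕ) : ℝ) * ε := by
        have h1 := dst_le (cY_nonneg hc Y) w
        rw [wc_cY_zero w hw] at h1
        simpa [DD] using h1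
      exact (levOf_le h0).trans (Nat.zero_le l)
  have hsum : ∑ k ∈ range K, ((kap (levOf (DD G c t Y) ε) k univ : ℝ) - 1) ≤
      ∑ l ∈ range K, ((ncl (pl (levOf (DD G c t ∅) ε) l ⊔ py G t Y) : ℝ) - 1) := by
    apply Finset.sum_le_sum
    intro l _
    have : ((kap (levOf (DD G c t Y) ε) l univ : ℕ) : ℝ) ≤
        (ncl (pl (levOf (DD G c t ∅) ε) l ⊔ py G t Y) : ℕ) := by exact_mod_cast hmain l
    linarith
  have := mul_le_mul_of_nonneg_left hsum hε.le
  linarith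

theorem Fv_empty_le (hε : 0 ≤ ε) {lev : ι → ι → ℕ} (hU : Ult K lev) :
    Fv G c t K ε lev ∅ ≤ mu lev K ε univ := by
  unfold Fv mu
  have h0 : ec c (∅ : Finset (Sym2 V)) = 0 := by simp [ec]
  rw [h0, zero_add]
  apply mul_le_mul_of_nonneg_left _ hε
  apply Finset.sum_le_sum
  intro l _
  have h1 : ncl (pl lev l ⊔ py G t ∅) ≤ kap lev l univ := by
    rw [← ncl_pl hU]
    apply ncl_mono
    intro a b hab
    exact Relation.EqvGen.rel _ _ (Or.inl hab)
  have : ((ncl (pl lev l ⊔ py G t ∅) : ℕ) : ℝ) ≤ (kap lev l univ : ℕ) := by exact_mod_cast h1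
  linarith

end BcrR
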