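import Pool.Agent.Lib.BcrR.RPhase
import Pool.Agent.Lib.BcrR.RStart

/-!
MODULE RChain. The chain of phases.
-/

namespace BcrR

open Finset BcrU Bcr3

variable {V : Type} {G : SimpleGraph V} {c : Sym2 V → ℝ} {ι : Type} [Fintype ι] [DecidableEq ι]
  {t : ι → V} {K : ℕ} {ε : ℝ}

private theorem RChain_cY_empty (c : Sym2 V → ℝ) : cY c (∅ : Finset (Sym2 V)) = c := by
  funext e
  simp [cY]

private theorem RChain_arith {k x M M' s B : ℝ} (hk : 1 < k) (hM : M ≤ B)
    (h : x + M ≤ s + M / (k - 1)) :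
    (x + ((k + 1) - 2) / ((k + 1) - 1) * (M - M')) + M' ≤
      (s + B / (k * (k - 1))) + M' / ((k + 1) - 1) := by
  have hk0 : 0 < k := by linarith
  have hk1 : 0 < k - 1 := by linarith
  have e1 : ((k + 1) - 2) / ((k + 1) - 1) * (M - M') = (M - M') - M / k + M' / k := by
    have : (k + 1) - 1 ≠ 0 := by linarith
    field_simp
    ring
  have e2 : M / (k - 1) - M / k = M / (k * (k - 1)) := by
    have : k - 1 ≠ 0 := by linarith
    field_simp
    ring
  have e3 : M / (k * (k - 1)) ≤ B / (k * (k - 1)) :=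
    div_le_div_of_nonneg_right hM (by positivity)
  have e4 : (k + 1) - 1 = k := by ring
  rw [e1, e4]
  linarith

theorem chain [Fintype V] [DecidableEq V] (hc : ∀ e, 0 ≤ c e) {R : Finset V} {r : V}
    (hr : r ∈ R) (hsurj : ∀ v ∈ R, ∃ i, t i = v) (ht : ∀ i, G.Reachable r (t i)) (hε : 0 < ε)
    (hK : ∀ i j, dst G c (t i) (t j) ≤ K * ε) {N : ℕ} (hN : 2 ≤ N) (b : ℕ → ℝ)
    (hb2 : MM G c t K ε ∅ ≤ b 2)
    (hb : ∀ k, 3 ≤ k → k ≤ N → ∀ lev : ι → ι → ℕ, Ult K lev → Tight G c t K ε lev k →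
      mu lev K ε univ ≤ b k) :
    OPT G c R ≤ (∑ k ∈ Ico 2 N, b k / ((k : ℝ) * ((k : ℝ) - 1))) + b N / ((N : ℝ) - 1) := by
  have hDD : ∀ i j, DD G c t ∅ i j = dst G c (t i) (t j) := by
    intro i j
    unfold DD
    rw [RChain_cY_empty]
  have hU0 : Ult K (levOf (DD G c t ∅) ε) := by
    refine levOf_ult hε (fun i j => ?_) (fun i j => ?_)
    · rw [hDD, hDD, dst_symm]
    · rw [hDD]
      exact hK i j
  have key : ∀ k, 2 ≤ k → k ≤ N → ∃ lev : ι → ι → ℕ, ∃ x : ℝ, Ult K lev ∧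
      mu lev K ε univ ≤ b k ∧ (∀ Y, OPT G c R ≤ Fv G c t K ε lev Y + x) ∧
      x + mu lev K ε univ ≤ (∑ j ∈ Ico 2 k, b j / ((j : ℝ) * ((j : ℝ) - 1))) +
        mu lev K ε univ / ((k : ℝ) - 1) := by
    intro k hk
    induction k, hk using Nat.le_induction with
    | base =>
      intro _
      refine ⟨levOf (DD G c t ∅) ε, 0, hU0, hb2, fun Y => ?_, ?_⟩
      · rw [add_zero]
        exact start hc hr hsurj ht hε hK Y
      · rw [Ico_self, sum_empty]
        push_cast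
        norm_num
    | succ k hk ih =>
      intro hkN
      obtain ⟨lev, x, hU, hM, hF, hx⟩ := ih (by omega)
      obtain ⟨lev', hU', hT, hM', hF'⟩ := phase hc hε (k := k + 1) (by omega) hU hF
      refine ⟨lev', _, hU', hb (k + 1) (by omega) hkN lev' hU' hT, hF', ?_⟩
      have hk2 : (2 : ℝ) ≤ k := by exact_mod_cast hk
      have h1 := RChain_arith (k := (k : ℝ)) (M' := mu lev' K ε univ) (by linarith) hM hx
      rw [sum_Ico_succ_top hk]
      push_cast
      exact h1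
  obtain ⟨lev, x, hU, hM, hF, hx⟩ := key N hN le_rfl
  have h1 := hF ∅
  have h2 : Fv G c t K ε lev ∅ ≤ mu lev K ε univ := Fv_empty_le hε.le hU
  have hN2 : (2 : ℝ) ≤ N := by exact_mod_cast hN
  have h3 : mu lev K ε univ / ((N : ℝ) - 1) ≤ b N / ((N : ℝ) - 1) :=
    div_le_div_of_nonneg_right hM (by linarith)
  linarith

end BcrR
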