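import Pool.Agent.Lib.BcrR.RRank
import Pool.Agent.Lib.BcrU.LUlt

/-!
MODULE RKap (160 lines). Number of classes and levels.

* `ncl_pl`: `pl lev l` is an equivalence relation (`Ult`), its classes are the sets `cl lev l i`
  (`Relation.eqvGen_iff_of_equivalence`-like), so `ncl = kap lev l univ`.
* `ncl_ps`: the relation `E i j := lev i j ≤ l ∨ ∃ a ∈ S, ∃ b ∈ S, lev i a ≤ l ∧ lev b j ≤ l ∧ lev a b ≤ l + 1` is an equivalence
  (transitivity: `lev b a' ≤ l` if both are within `l` of `j`, so `lev a b' ≤ l + 1`) and it is generated by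
  `pl lev l ⊔ ps S lev (l+1)`. Classes: the classes `cl lev l i` which do not meet `S` (there are `kap lev l univ - kap lev l S`
  of them) and one class for each class of level `l+1` meeting `S` (`kap lev (l+1) S`).
  Alternative: induction/rank argument; or count with the labelling `f i = Sum.inr (cl lev (l+1) a)` if `a ∈ S`, `lev i a ≤ l`, and
  `f i = Sum.inl (cl lev l i)` otherwise.
* `kap_zero`: distinct classes of level `0`. `kap_top`: `kap lev K S = 1`.
* `kap_anti`: `kap lev (l+1) S ≤ kap lev l S`.
-/

namespace BcrR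

open Finset BcrU

variable {ι : Type} [Fintype ι] [DecidableEq ι] {lev : ι → ι → ℕ} {K : ℕ}

omit [Fintype ι] in
private theorem RKap_card {α β : Type} [DecidableEq α] [DecidableEq β] (g : ι → α) (h : ι → β)
    (hh : ∀ i j, g i = g j ↔ h i = h j) (T : Finset ι) :
    (T.image g).card = (T.image h).card := by
  induction T using Finset.induction_on with
  | empty => simp
  | insert a T _ ih =>
    rw [Finset.image_insert, Finset.image_insert]
    have hm : g a ∈ T.image g ↔ h a ∈ T.image h := by
      rw [Finset.mem_image, Finset.mem_image]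
      constructor
      · rintro ⟨b, hb, e⟩
        exact ⟨b, hb, (hh _ _).1 e⟩
      · rintro ⟨b, hb, e⟩
        exact ⟨b, hb, (hh _ _).2 e⟩
    by_cases h1 : g a ∈ T.image g
    · rw [Finset.insert_eq_of_mem h1, Finset.insert_eq_of_mem (hm.1 h1), ih]
    · rw [Finset.card_insert_of_notMem h1, Finset.card_insert_of_notMem (fun h2 => h1 (hm.2 h2)),
        ih]

omit [Fintype ι] in
private theorem RKap_le {α β : Type} [DecidableEq α] [DecidableEq β] (g : ι → α) (h : ι → β)
    (hh : ∀ i j, h i = h j → g i = g j) (T : Finset ι) :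
    (T.image g).card ≤ (T.image h).card := by
  induction T using Finset.induction_on with
  | empty => simp
  | insert a T _ ih =>
    rw [Finset.image_insert, Finset.image_insert]
    by_cases h1 : h a ∈ T.image h
    · have h2 : g a ∈ T.image g := by
        obtain ⟨b, hb, e⟩ := Finset.mem_image.1 h1
        exact Finset.mem_image.2 ⟨b, hb, hh _ _ e⟩
      rw [Finset.insert_eq_of_mem h1, Finset.insert_eq_of_mem h2]
      exact ih
    · rw [Finset.card_insert_of_notMem h1]
      exact (Finset.card_insert_le _ _).trans (Nat.succ_le_succ ih)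

private theorem RKap_ncl {β : Type} [DecidableEq β] {r : ι → ι → Prop} (f : ι → β)
    (h : ∀ i j, Relation.EqvGen r i j ↔ f i = f j) : ncl r = (univ.image f).card := by
  classical
  unfold ncl
  have h1 : ∀ i j, (univ.filter fun k => Relation.EqvGen r i k) =
      (univ.filter fun k => Relation.EqvGen r j k) ↔ f i = f j := by
    intro i j
    constructor
    · intro e
      have h2 : j ∈ univ.filter fun k => Relation.EqvGen r j k :=
        Finset.mem_filter.2 ⟨mem_univ _, Relation.EqvGen.refl j⟩
      rw [← e, Finset.mem_filter] at h2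
      exact (h i j).1 h2.2
    · intro e
      ext k
      simp only [Finset.mem_filter, mem_univ, true_and]
      rw [h, h, e]
  rw [← RKap_card (fun i => univ.filter fun k => Relation.EqvGen r i k) f h1 univ]
  have e : ∀ (g : ι → Finset ι) (d1 d2 : DecidableEq (Finset ι)),
      (@image ι (Finset ι) d1 g univ).card = (@image ι (Finset ι) d2 g univ).card := by
    intro g d1 d2
    rw [Subsingleton.elim d1 d2]
  exact e _ _ _

private theorem RKap_split {β : Type} [DecidableEq β] (f : ι → β) (p : ι → Prop) [DecidablePred p]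
    (hd : ∀ i j, p i → ¬ p j → f i ≠ f j) :
    (univ.image f).card = ((univ.filter p).image f).card +
      ((univ.filter fun i => ¬ p i).image f).card := by
  rw [← Finset.card_union_of_disjoint, ← Finset.image_union, Finset.filter_union_filter_not_eq]
  rw [Finset.disjoint_left]
  intro x hx hx'
  obtain ⟨i, hi, rfl⟩ := Finset.mem_image.1 hx
  obtain ⟨j, hj, e⟩ := Finset.mem_image.1 hx'
  exact hd i j (Finset.mem_filter.1 hi).2 (Finset.mem_filter.1 hj).2 e.symm

theorem ncl_pl (hU : Ult K lev) (l : ℕ) : ncl (pl lev l) = kap lev l univ := by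
  have he : Equivalence (pl lev l) := by
    refine ⟨fun i => ?_, fun {i j} h => ?_, fun {i j k} h h' => ?_⟩
    · show lev i i ≤ l
      rw [hU.refl]
      exact Nat.zero_le _
    · show lev j i ≤ l
      rw [hU.symm]
      exact h
    · exact (hU.ultra i j k).trans (max_le h h')
  rw [RKap_ncl (cl lev l) (fun i j => by rw [he.eqvGen_iff, cl_eq_iff hU]; rfl)]
  rfl

theorem ncl_ps (hU : Ult K lev) (S : Finset ι) (l : ℕ) :
    ncl (pl lev l ⊔ ps S lev (l + 1)) + kap lev l S = kap lev l univ + kap lev (l + 1) S := by
  classical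
  set E : ι → ι → Prop := fun i j => lev i j ≤ l ∨
    ∃ a ∈ S, ∃ b ∈ S, lev i a ≤ l ∧ lev b j ≤ l ∧ lev a b ≤ l + 1 with hE
  set p : ι → Prop := fun i => ∃ a ∈ S, lev i a ≤ l with hp
  set f : ι → Finset ι ⊕ Finset ι := fun i =>
    if p i then Sum.inr (cl lev (l + 1) i) else Sum.inl (cl lev l i) with hf
  have hult : ∀ {i j k m : ι} {n : ℕ}, lev i j ≤ n → lev j k ≤ n → lev k m ≤ n → lev i m ≤ n := by
    intro i j k m n h1 h2 h3
    exact (hU.ultra i j m).trans (max_le h1 ((hU.ultra j k m).trans (max_le h2 h3)))
  have hsy : ∀ {i j : ι} {n : ℕ}, lev i j ≤ n → lev j i ≤ n := by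
    intro i j n h
    rw [hU.symm]
    exact h
  have hpl : ∀ i j, lev i j ≤ l → (p i ↔ p j) := by
    intro i j h
    constructor
    · rintro ⟨a, ha, h1⟩
      exact ⟨a, ha, (hU.ultra j i a).trans (max_le (hsy h) h1)⟩
    · rintro ⟨a, ha, h1⟩
      exact ⟨a, ha, (hU.ultra i j a).trans (max_le h h1)⟩
  have hfE : ∀ i j, f i = f j ↔ E i j := by
    intro i j
    by_cases hi : p i
    · by_cases hj : p j
      · rw [hf]
        simp only [hi, hj, if_true, Sum.inr.injEq]
        rw [cl_eq_iff hU]
        obtain ⟨a, ha, h1⟩ := hi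
        obtain ⟨b, hb, h2⟩ := hj
        constructor
        · intro h
          exact Or.inr ⟨a, ha, b, hb, h1, hsy h2,
            hult (hsy (h1.trans (Nat.le_succ l))) h (h2.trans (Nat.le_succ l))⟩
        · rintro (h | ⟨a', _, b', _, h3, h4, h5⟩)
          · exact h.trans (Nat.le_succ l)
          · exact hult (h3.trans (Nat.le_succ l)) h5 (h4.trans (Nat.le_succ l))
      · have hne : ¬ E i j := by
          rintro (h | ⟨a', _, b', hb', h3, h4, h5⟩)
          · exact hj ((hpl i j h).1 hi)
          · exact hj ⟨b', hb', hsy h4⟩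
        have : f i ≠ f j := by
          rw [hf]
          simp only [hi, hj, if_true, if_false]
          exact Sum.inr_ne_inl
        exact ⟨fun h => absurd h this, fun h => absurd h hne⟩
    · by_cases hj : p j
      · have hne : ¬ E i j := by
          rintro (h | ⟨a', ha', b', hb', h3, h4, h5⟩)
          · exact hi ((hpl i j h).2 hj)
          · exact hi ⟨a', ha', h3⟩
        have : f i ≠ f j := by
          rw [hf]
          simp only [hi, hj, if_true, if_false]
          exact Sum.inl_ne_inr
        exact ⟨fun h => absurd h this, fun h => absurd h hne⟩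
      · rw [hf]
        simp only [hi, hj, if_false, Sum.inl.injEq]
        rw [cl_eq_iff hU]
        constructor
        · intro h
          exact Or.inl h
        · rintro (h | ⟨a', ha', b', hb', h3, h4, h5⟩)
          · exact h
          · exact absurd ⟨a', ha', h3⟩ hi
  have hgen : ∀ i j, Relation.EqvGen (pl lev l ⊔ ps S lev (l + 1)) i j ↔ f i = f j := by
    intro i j
    constructor
    · intro h
      induction h with
      | rel x y hxy =>
        rw [hfE]
        rcases hxy with h | ⟨hx, hy, h⟩
        · exact Or.inl h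
        · exact Or.inr ⟨x, hx, y, hy, by rw [hU.refl]; exact Nat.zero_le _,
            by rw [hU.refl]; exact Nat.zero_le _, h⟩
      | refl x => rfl
      | symm x y _ ih => exact ih.symm
      | trans x y z _ _ ih1 ih2 => exact ih1.trans ih2
    · intro h
      rw [hfE] at h
      rcases h with h | ⟨a, ha, b, hb, h1, h2, h3⟩
      · exact Relation.EqvGen.rel _ _ (Or.inl h)
      · exact Relation.EqvGen.trans _ _ _ (Relation.EqvGen.rel i a (Or.inl h1))
          (Relation.EqvGen.trans _ _ _ (Relation.EqvGen.rel a b (Or.inr ⟨ha, hb, h3⟩))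
            (Relation.EqvGen.rel b j (Or.inl h2)))
  rw [RKap_ncl f hgen]
  have himg : ∀ n, l ≤ n → (univ.filter p).image (cl lev n) = S.image (cl lev n) := by
    intro n hn
    ext B
    rw [Finset.mem_image, Finset.mem_image]
    constructor
    · rintro ⟨i, hi, rfl⟩
      obtain ⟨a, ha, h1⟩ := (Finset.mem_filter.1 hi).2
      exact ⟨a, ha, ((cl_eq_iff hU).2 (h1.trans hn)).symm⟩
    · rintro ⟨a, ha, rfl⟩
      exact ⟨a, Finset.mem_filter.2 ⟨mem_univ _, a, ha, by rw [hU.refl]; exact Nat.zero_le _⟩, rfl⟩
  have e1 : (univ.image f).card = ((univ.filter p).image f).card +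
      ((univ.filter fun i => ¬ p i).image f).card := by
    refine RKap_split f p ?_
    intro i j hi hj
    rw [hf]
    simp only [hi, hj, if_true, if_false]
    exact Sum.inr_ne_inl
  have e2 : (univ.image (cl lev l)).card = ((univ.filter p).image (cl lev l)).card +
      ((univ.filter fun i => ¬ p i).image (cl lev l)).card := by
    refine RKap_split (cl lev l) p ?_
    intro i j hi hj h
    exact hj ((hpl i j ((cl_eq_iff hU).1 h)).1 hi)
  have e3 : ((univ.filter p).image f).card = kap lev (l + 1) S := by
    have : (univ.filter p).image f = ((univ.filter p).image (cl lev (l + 1))).image Sum.inr := by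
      rw [Finset.image_image]
      refine Finset.image_congr ?_
      intro i hi
      have hi' : p i := (Finset.mem_filter.1 (Finset.mem_coe.1 hi)).2
      rw [hf]
      simp only [hi', if_true, Function.comp]
    rw [this, Finset.card_image_of_injective _ Sum.inr_injective, himg (l + 1) (Nat.le_succ l)]
    rfl
  have e4 : ((univ.filter fun i => ¬ p i).image f).card =
      ((univ.filter fun i => ¬ p i).image (cl lev l)).card := by
    have : (univ.filter fun i => ¬ p i).image f =
        ((univ.filter fun i => ¬ p i).image (cl lev l)).image Sum.inl := by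
      rw [Finset.image_image]
      refine Finset.image_congr ?_
      intro i hi
      have hi' : ¬ p i := (Finset.mem_filter.1 (Finset.mem_coe.1 hi)).2
      rw [hf]
      simp only [hi', if_false, Function.comp]
    rw [this, Finset.card_image_of_injective _ Sum.inl_injective]
  have e5 : ((univ.filter p).image (cl lev l)).card = kap lev l S := by
    rw [himg l le_rfl]
    rfl
  have e6 : kap lev l univ = (univ.image (cl lev l)).card := rfl
  rw [e1, e3, e4, e6, e2, e5]
  omega

theorem kap_anti (hU : Ult K lev) (S : Finset ι) (l : ℕ) :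
    kap lev (l + 1) S ≤ kap lev l S := by
  refine RKap_le (cl lev (l + 1)) (cl lev l) ?_ S
  intro i j h
  exact (cl_eq_iff hU).2 (((cl_eq_iff hU).1 h).trans (Nat.le_succ l))

theorem kap_zero (hU : Ult K lev) {S : Finset ι}
    (h : ∀ a ∈ S, ∀ b ∈ S, a ≠ b → 1 ≤ lev a b) : kap lev 0 S = S.card := by
  refine Finset.card_image_of_injOn ?_
  intro a ha b hb e
  by_contra hab
  have h1 := h a ha b hb hab
  have h2 := (cl_eq_iff hU).1 e
  omega

theorem kap_top (hU : Ult K lev) {S : Finset ι} (hS : S.Nonempty) : kap lev K S = 1 := by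
  have h1 : S.image (cl lev K) = {univ} := by
    ext B
    rw [Finset.mem_image, Finset.mem_singleton]
    constructor
    · rintro ⟨i, _, rfl⟩
      ext j
      rw [mem_cl]
      simp [hU.bound i j]
    · rintro rfl
      obtain ⟨i, hi⟩ := hS
      refine ⟨i, hi, ?_⟩
      ext j
      rw [mem_cl]
      simp [hU.bound i j]
  show (S.image (cl lev K)).card = 1
  rw [h1, Finset.card_singleton]

end BcrR
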