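import Pool.Agent.Lib.BcrR.RRank
import Pool.Agent.Lib.BcrU.LUlt

/-!
MODULE RLow (150 lines). The lowered levels `lowr lev S`.

* `lowr_le_iff`: the set is upward closed and contains `K` (`bound`), `Nat.sInf_mem`, `Nat.sInf_le`.
* `lowr_ult`: `refl` (`lev i i = 0`), `symm`, `bound` (`lev i j ≤ K`), `ultra`: at `l = max (lowr i j) (lowr j m)` both conditions hold
  (upward closed); compose: `lev b a' ≤ l` if `lev b j ≤ l` and `lev j a' ≤ l`, so `lev a b' ≤ max (l+1) l (l+1)`.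
* `lowr_le`, `lowr_lt`: at `l = lev a b - 1` the second condition holds with `lev a a = 0`, `lev b b = 0`.
* `ncl_lowr`: `pl (lowr lev S) l` and `pl lev l ⊔ ps S lev (l+1)` generate the same equivalence (`lowr_le_iff`: a pair with the
  second condition is `i - a - b - j`), also together with `y`; `ncl_congr`.
-/

namespace BcrR

open Finset BcrU

variable {ι : Type} {lev : ι → ι → ℕ} {K : ℕ}

theorem lowr_le_iff (hU : Ult K lev) (S : Finset ι) {i j : ι} {l : ℕ} :
    lowr lev S i j ≤ l ↔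
      (lev i j ≤ l ∨ ∃ a ∈ S, ∃ b ∈ S, lev i a ≤ l ∧ lev b j ≤ l ∧ lev a b ≤ l + 1) := by
  have hmem : sInf {l : ℕ | lev i j ≤ l ∨
      ∃ a ∈ S, ∃ b ∈ S, lev i a ≤ l ∧ lev b j ≤ l ∧ lev a b ≤ l + 1} ∈
      {l : ℕ | lev i j ≤ l ∨
      ∃ a ∈ S, ∃ b ∈ S, lev i a ≤ l ∧ lev b j ≤ l ∧ lev a b ≤ l + 1} :=
    Nat.sInf_mem ⟨K, Or.inl (hU.bound i j)⟩
  constructor
  · intro h
    have h' : sInf {l : ℕ | lev i j ≤ l ∨
      ∃ a ∈ S, ∃ b ∈ S, lev i a ≤ l ∧ lev b j ≤ l ∧ lev a b ≤ l + 1} ≤ l := h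
    rcases hmem with h1 | ⟨a, ha, b, hb, h1, h2, h3⟩
    · exact Or.inl (h1.trans h')
    · exact Or.inr ⟨a, ha, b, hb, h1.trans h', h2.trans h', h3.trans (Nat.add_le_add_right h' 1)⟩
  · intro h
    exact Nat.sInf_le h

theorem lowr_ult (hU : Ult K lev) (S : Finset ι) : Ult K (lowr lev S) := by
  have hsymm : ∀ i j, lowr lev S i j ≤ lowr lev S j i := by
    intro i j
    rw [lowr_le_iff hU]
    rcases (lowr_le_iff hU S).1 (le_refl (lowr lev S j i)) with h1 | ⟨a, ha, b, hb, h1, h2, h3⟩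
    · exact Or.inl (by rw [hU.symm]; exact h1)
    · refine Or.inr ⟨b, hb, a, ha, ?_, ?_, ?_⟩
      · rw [hU.symm]; exact h2
      · rw [hU.symm]; exact h1
      · rw [hU.symm]; exact h3
  refine ⟨?_, fun i j => le_antisymm (hsymm i j) (hsymm j i), ?_, ?_⟩
  · intro i
    have h : lowr lev S i i ≤ 0 := (lowr_le_iff hU S).2 (Or.inl (by rw [hU.refl]))
    omega
  · intro i j m
    set l := max (lowr lev S i j) (lowr lev S j m) with hl
    have h1 := (lowr_le_iff hU S).1 (le_max_left (lowr lev S i j) (lowr lev S j m))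
    have h2 := (lowr_le_iff hU S).1 (le_max_right (lowr lev S i j) (lowr lev S j m))
    rw [← hl] at h1 h2
    rw [lowr_le_iff hU]
    rcases h1 with h1 | ⟨a, ha, b, hb, h1, h1', h1''⟩
    · rcases h2 with h2 | ⟨c, hc, d, hd, h2, h2', h2''⟩
      · exact Or.inl ((hU.ultra i j m).trans (max_le h1 h2))
      · exact Or.inr ⟨c, hc, d, hd, (hU.ultra i j c).trans (max_le h1 h2), h2', h2''⟩
    · rcases h2 with h2 | ⟨c, hc, d, hd, h2, h2', h2''⟩
      · exact Or.inr ⟨a, ha, b, hb, h1, (hU.ultra b j m).trans (max_le h1' h2), h1''⟩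
      · refine Or.inr ⟨a, ha, d, hd, h1, h2', ?_⟩
        have e1 : lev b c ≤ l := (hU.ultra b j c).trans (max_le h1' h2)
        have e2 : lev b d ≤ l + 1 := (hU.ultra b c d).trans (max_le (by omega) h2'')
        exact (hU.ultra a b d).trans (max_le h1'' e2)
  · intro i j
    exact (lowr_le_iff hU S).2 (Or.inl (hU.bound i j))

theorem lowr_le (hU : Ult K lev) (S : Finset ι) (i j : ι) : lowr lev S i j ≤ lev i j :=
  (lowr_le_iff hU S).2 (Or.inl le_rfl)

theorem lowr_lt (hU : Ult K lev) {S : Finset ι} {a b : ι} (ha : a ∈ S) (hb : b ∈ S)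
    (h : 1 ≤ lev a b) : lowr lev S a b < lev a b := by
  have h1 : lowr lev S a b ≤ lev a b - 1 := by
    rw [lowr_le_iff hU]
    refine Or.inr ⟨a, ha, b, hb, ?_, ?_, ?_⟩
    · rw [hU.refl]; exact Nat.zero_le _
    · rw [hU.refl]; exact Nat.zero_le _
    · omega
  omega

theorem ncl_lowr [Fintype ι] (hU : Ult K lev) (S : Finset ι) (l : ℕ) (y : ι → ι → Prop) :
    ncl (pl (lowr lev S) l ⊔ y) = ncl (pl lev l ⊔ ps S lev (l + 1) ⊔ y) := by
  refine (ncl_congr ?_ ?_).symm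
  · intro a b h
    rcases h with h | h
    · rcases (lowr_le_iff hU S).1 h with h1 | ⟨c, hc, d, hd, h1, h2, h3⟩
      · exact Relation.EqvGen.rel _ _ (Or.inl (Or.inl h1))
      · exact Relation.EqvGen.trans _ _ _
          (Relation.EqvGen.rel a c (Or.inl (Or.inl h1)))
          (Relation.EqvGen.trans _ _ _
            (Relation.EqvGen.rel c d (Or.inl (Or.inr ⟨hc, hd, h3⟩)))
            (Relation.EqvGen.rel d b (Or.inl (Or.inl h2))))
    · exact Relation.EqvGen.rel _ _ (Or.inr h)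
  · intro a b h
    rcases h with (h | h) | h
    · exact Relation.EqvGen.rel _ _ (Or.inl ((lowr_le_iff hU S).2 (Or.inl h)))
    · refine Relation.EqvGen.rel _ _ (Or.inl ((lowr_le_iff hU S).2 (Or.inr
        ⟨a, h.1, b, h.2.1, ?_, ?_, h.2.2⟩)))
      · rw [hU.refl]; exact Nat.zero_le _
      · rw [hU.refl]; exact Nat.zero_le _
    · exact Relation.EqvGen.rel _ _ (Or.inr h)

end BcrR
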