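import Pool.Agent.Lib.BcrR.RStep

/-!
MODULE RPhase (150 lines). The phase for components with at most `k` terminals.

Strong induction on the natural number `∑ i, ∑ j, lev i j` (generalising `lev` and `x`).
If `Tight .. lev k`: take `lev' = lev` (the additional term is `0`).
Otherwise there are `S` nonempty, `S.card ≤ k`, `YS` connecting `S` with `ec c YS + ε < mu lev K ε S`; choose such an `S` with the
smallest number of elements (over all such `YS`). Then `2 ≤ S.card` (`mu_singleton`: `mu = 0`, but `ec c YS + ε > 0`), and all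
`a ≠ b` in `S` have `1 ≤ lev a b`: if `lev a b = 0` then `S.erase b` has the same classes, `kap lev l (S.erase b) = kap lev l S` for all
`l` (`cl lev l b = cl lev l a`), so `mu` is the same, and `YS` connects `S.erase b`: a smaller violating set.
Let `lev1 = lowr lev S`, `x1 = x + ε (S.card - 2)`. By `step_F` the hypothesis holds for `lev1, x1`; by `step_M`
`mu lev univ - mu lev1 univ = ε (S.card - 1)`, so `x1 - x = (S.card - 2)/(S.card - 1) (mu lev univ - mu lev1 univ)`
`≤ (k-2)/(k-1) (mu lev univ - mu lev1 univ)` (`(n-2)/(n-1)` is increasing). The sum of `lev1` is smaller (`lowr_le`, `lowr_lt`).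
Apply the induction hypothesis to `lev1` and combine.
-/

namespace BcrR

open Finset BcrU Bcr3

variable {V : Type} {G : SimpleGraph V} {c : Sym2 V → ℝ} {ι : Type} [Fintype ι] [DecidableEq ι]
  {t : ι → V} {K : ℕ} {ε : ℝ}

private theorem RPhase_ec_nonneg (hc : ∀ e, 0 ≤ c e) (Y : Finset (Sym2 V)) : 0 ≤ ec c Y :=
  Finset.sum_nonneg fun e _ => hc e

private theorem RPhase_mu_erase {lev : ι → ι → ℕ} (hU : Ult K lev) {S : Finset ι} {a b : ι}
    (ha : a ∈ S) (hab : a ≠ b) (h0 : lev a b = 0) :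
    mu lev K ε (S.erase b) = mu lev K ε S := by
  have hk : ∀ l, kap lev l (S.erase b) = kap lev l S := by
    intro l
    rw [kap, kap]
    congr 1
    apply Finset.Subset.antisymm
    · exact Finset.image_subset_image (Finset.erase_subset b S)
    · intro B hB
      rw [mem_image] at hB ⊢
      obtain ⟨i, hi, rfl⟩ := hB
      by_cases hib : i = b
      · refine ⟨a, Finset.mem_erase.2 ⟨hab, ha⟩, ?_⟩
        rw [hib]
        exact (cl_eq_iff hU).2 (by omega)
      · exact ⟨i, Finset.mem_erase.2 ⟨hib, hi⟩, rfl⟩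
  rw [mu, mu]
  simp_rw [hk]

/-- a smallest violating set -/
private theorem RPhase_violate (hc : ∀ e, 0 ≤ c e) (hε : 0 < ε) {k : ℕ} {lev : ι → ι → ℕ}
    (hU : Ult K lev) (hT : ¬ Tight G c t K ε lev k) :
    ∃ S : Finset ι, 2 ≤ S.card ∧ S.card ≤ k ∧ (∀ a ∈ S, ∀ b ∈ S, a ≠ b → 1 ≤ lev a b) ∧
      ∃ YS : Finset (Sym2 V), (∀ i ∈ S, ∀ j ∈ S, conn G YS (t i) (t j)) ∧
        ec c YS + ε ≤ mu lev K ε S := by
  classical
  have hex : ∃ n : ℕ, ∃ S : Finset ι, S.Nonempty ∧ S.card = n ∧ S.card ≤ k ∧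
      ∃ YS : Finset (Sym2 V), (∀ i ∈ S, ∀ j ∈ S, conn G YS (t i) (t j)) ∧
        ec c YS + ε < mu lev K ε S := by
    unfold Tight at hT
    push Not at hT
    obtain ⟨S, hS, hSk, Y, hY, hlt⟩ := hT
    exact ⟨S.card, S, hS, rfl, hSk, Y, hY, hlt⟩
  obtain ⟨S, hS, hSn, hSk, YS, hY, hlt⟩ := Nat.find_spec hex
  have hmin := fun m (hm : m < Nat.find hex) => Nat.find_min hex hm
  refine ⟨S, ?_, hSk, ?_, YS, hY, hlt.le⟩
  · by_contra hcon
    have h1 : S.card = 1 := by
      have := hS.card_pos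
      omega
    obtain ⟨i, rfl⟩ := Finset.card_eq_one.1 h1
    rw [mu_singleton hU] at hlt
    have := RPhase_ec_nonneg hc YS
    linarith
  · intro a ha b hb hab
    by_contra hcon
    have h0 : lev a b = 0 := by omega
    have hcard : (S.erase b).card < Nat.find hex := by
      rw [← hSn]
      exact Finset.card_erase_lt_of_mem hb
    refine hmin _ hcard ⟨S.erase b, ⟨a, Finset.mem_erase.2 ⟨hab, ha⟩⟩, rfl, ?_, YS, ?_, ?_⟩
    · omega
    · intro i hi j hj
      exact hY i (Finset.mem_of_mem_erase hi) j (Finset.mem_of_mem_erase hj)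
    · rw [RPhase_mu_erase hU ha hab h0]
      exact hlt

theorem phase (hc : ∀ e, 0 ≤ c e) (hε : 0 < ε) {k : ℕ} (hk : 2 ≤ k) {lev : ι → ι → ℕ}
    (hU : Ult K lev) {A x : ℝ} (hx : ∀ Y, A ≤ Fv G c t K ε lev Y + x) :
    ∃ lev' : ι → ι → ℕ, Ult K lev' ∧ Tight G c t K ε lev' k ∧
      mu lev' K ε univ ≤ mu lev K ε univ ∧
      ∀ Y, A ≤ Fv G c t K ε lev' Y +
        (x + ((k : ℝ) - 2) / ((k : ℝ) - 1) * (mu lev K ε univ - mu lev' K ε univ)) := by
  classical
  generalize hn : ∑ i, ∑ j, lev i j = n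
  induction n using Nat.strong_induction_on generalizing lev x with
  | _ n ih =>
  by_cases hT : Tight G c t K ε lev k
  · refine ⟨lev, hU, hT, le_refl _, fun Y => ?_⟩
    have := hx Y
    rw [sub_self, mul_zero, add_zero]
    exact this
  · obtain ⟨S, hS2, hSk, hd, YS, hY, hgain⟩ := RPhase_violate hc hε hU hT
    have hSne : S.Nonempty := Finset.card_pos.1 (by omega)
    have hU1 : Ult K (lowr lev S) := lowr_ult hU S
    have hx1 : ∀ Y, A ≤ Fv G c t K ε (lowr lev S) Y + (x + ε * ((S.card : ℝ) - 2)) := by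
      intro Y
      obtain ⟨Y', hY'⟩ := step_F hc hε hU hS2 hd hY hgain Y
      have := hx Y'
      linarith
    have hsum : ∑ i, ∑ j, lowr lev S i j < n := by
      rw [← hn]
      obtain ⟨a, ha, b, hb, hab⟩ := Finset.one_lt_card.1 (show 1 < S.card by omega)
      refine Finset.sum_lt_sum (fun i _ => Finset.sum_le_sum fun j _ => lowr_le hU S i j)
        ⟨a, mem_univ _, ?_⟩
      exact Finset.sum_lt_sum (fun j _ => lowr_le hU S a j)
        ⟨b, mem_univ _, lowr_lt hU ha hb (hd a ha b hb hab)⟩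
    obtain ⟨lev', hU', hT', hmu', hF'⟩ := ih _ hsum hU1 hx1 rfl
    have hM := step_M (ε := ε) hU hSne hd
    have hS2' : (2 : ℝ) ≤ (S.card : ℝ) := by exact_mod_cast hS2
    have hSk' : (S.card : ℝ) ≤ (k : ℝ) := by exact_mod_cast hSk
    have hk' : (2 : ℝ) ≤ (k : ℝ) := by exact_mod_cast hk
    refine ⟨lev', hU', hT', ?_, fun Y => ?_⟩
    · refine hmu'.trans ?_
      rw [hM]
      nlinarith
    · have h1 := hF' Y
      have h2 : ε * ((S.card : ℝ) - 2) ≤ ((k : ℝ) - 2) / ((k : ℝ) - 1) * (ε * ((S.card : ℝ) - 1)) := by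
        rw [div_mul_eq_mul_div, le_div_iff₀ (by linarith)]
        nlinarith
      have h3 : ((k : ℝ) - 2) / ((k : ℝ) - 1) * (mu lev K ε univ - mu lev' K ε univ)
          = ((k : ℝ) - 2) / ((k : ℝ) - 1) * (mu (lowr lev S) K ε univ - mu lev' K ε univ)
            + ((k : ℝ) - 2) / ((k : ℝ) - 1) * (ε * ((S.card : ℝ) - 1)) := by
        rw [hM]
        ring
      rw [h3]
      linarith

end BcrR
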