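import Pool.Agent.Lib.BcrR.RKap
import Pool.Agent.Lib.BcrR.RLow

/-!
MODULE RStep (220 lines). One step of the evaluation and of the construction.

Notation: `E l = pl lev l ⊔ py G t Y`, `X l = ps S lev (l+1)`, `A = pall S`, `a l = kap lev l S - kap lev (l+1) S` (`kap_anti`), so
`∑_{l<K} a l = kap lev 0 S - kap lev K S = S.card - 1` (telescoping, `kap_zero`, `kap_top`).

`step_M`: `mu (lowr lev S) univ = ε ∑_{l<K} (ncl (pl (lowr lev S) l) - 1)` (`ncl_pl`), `ncl_lowr` with the empty relation `y = ⊥`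
(`r ⊔ ⊥ = r`: `sup_bot_eq`), `ncl_ps`: `ncl (pl lev l ⊔ X l) = kap lev l univ - a l`.

`step_F`: `r l = ncl (E l) - ncl (E l ⊔ X l)` (a natural number, `ncl_mono`). `ncl_lowr` with `y = py G t Y` (and
`ncl_congr` to reorder the unions): `Fv lev Y = Fv (lowr lev S) Y + ε ∑_{l<K} r l`.
`r l ≤ a l`: `ncl_submod` for `pl lev l` (finer) and `E l`, `x = X l`, with `ncl_pl`, `ncl_ps`.
Case 1: `∑ r l ≤ S.card - 2`: take `Y' = Y`.
Case 2: otherwise `∑ r l = ∑ a l = S.card - 1`, so `r l = a l` for all `l < K`. Put `R l = ncl (E l) - ncl (E l ⊔ A)` (natural number).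
  `R l ≥ r l + R (l+1)`: `ncl (E l) - ncl (E l ⊔ X l) = r l` and `ncl (E l ⊔ X l) - ncl (E l ⊔ X l ⊔ A) ≥ ncl (E (l+1)) - ncl (E (l+1) ⊔ A)` by
  `ncl_submod` (`E l ⊔ X l ≤ E (l+1)`), and `ncl (E l ⊔ X l ⊔ A) = ncl (E l ⊔ A)` (`ncl_congr`, `X l ≤ A`).
  By downward induction from `K`: `R l ≥ kap lev l S - kap lev K S = kap lev l S - 1` for `l ≤ K`.
  Take `Y' = Y ∪ YS`: `E l ⊔ A ≤` the equivalence generated by `pl lev l ⊔ py G t (Y ∪ YS)` (`hconn`, walks in `YS` or `Y` are walks in the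
  union), so `ncl (pl lev l ⊔ py G t (Y ∪ YS)) ≤ ncl (E l ⊔ A) = ncl (E l) - R l ≤ ncl (E l) - (kap lev l S - 1)` and
  `Fv lev Y' ≤ ec c Y + ec c YS + ε ∑ (ncl (E l) - 1) - mu lev K ε S = Fv lev Y + ec c YS - mu lev K ε S`
  `= Fv (lowr lev S) Y + ε (S.card - 1) + ec c YS - mu ≤ Fv (lowr lev S) Y + ε (S.card - 2)` by `hgain`.
  (`ec c (Y ∪ YS) ≤ ec c Y + ec c YS` as `c ≥ 0`.)
-/

namespace BcrR

open Finset BcrU Bcr3

variable {V : Type} {G : SimpleGraph V} {c : Sym2 V → ℝ} {ι : Type} [Fintype ι] [DecidableEq ι]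
  {t : ι → V} {K : ℕ} {ε : ℝ} {lev : ι → ι → ℕ}

theorem step_M (hU : Ult K lev) {S : Finset ι} (hS : S.Nonempty)
    (hd : ∀ a ∈ S, ∀ b ∈ S, a ≠ b → 1 ≤ lev a b) :
    mu (lowr lev S) K ε univ = mu lev K ε univ - ε * ((S.card : ℝ) - 1) := by
  have hU' : Ult K (lowr lev S) := lowr_ult hU S
  have key : ∀ l : ℕ, (kap (lowr lev S) l univ : ℝ) =
      (kap lev l univ : ℝ) + ((kap lev (l + 1) S : ℝ) - (kap lev l S : ℝ)) := by
    intro l
    have h1 : ncl (pl (lowr lev S) l) = kap (lowr lev S) l univ := ncl_pl hU' l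
    have h2 := ncl_lowr hU S l (⊥ : ι → ι → Prop)
    rw [sup_bot_eq, sup_bot_eq] at h2
    have h3 := ncl_ps hU S l
    have h4 : kap (lowr lev S) l univ + kap lev l S = kap lev l univ + kap lev (l + 1) S := by
      rw [← h1, h2, h3]
    have h5 : (kap (lowr lev S) l univ : ℝ) + (kap lev l S : ℝ) =
        (kap lev l univ : ℝ) + (kap lev (l + 1) S : ℝ) := by exact_mod_cast h4
    linarith
  have h0 : (kap lev 0 S : ℝ) = (S.card : ℝ) := by rw [kap_zero hU hd]
  have hK : (kap lev K S : ℝ) = 1 := by rw [kap_top hU hS]; norm_num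
  have htel : ∑ l ∈ range K, ((kap lev (l + 1) S : ℝ) - (kap lev l S : ℝ)) =
      (kap lev K S : ℝ) - (kap lev 0 S : ℝ) :=
    Finset.sum_range_sub (fun l => (kap lev l S : ℝ)) K
  unfold mu
  have hsum : ∑ k ∈ range K, ((kap (lowr lev S) k univ : ℝ) - 1) =
      ∑ k ∈ range K, ((kap lev k univ : ℝ) - 1) - ((S.card : ℝ) - 1) := by
    have e1 : ∑ k ∈ range K, ((kap (lowr lev S) k univ : ℝ) - 1) =
        ∑ k ∈ range K, (((kap lev k univ : ℝ) - 1) +
          ((kap lev (k + 1) S : ℝ) - (kap lev k S : ℝ))) := by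
      refine Finset.sum_congr rfl fun k _ => ?_
      rw [key k]; ring
    rw [e1, Finset.sum_add_distrib, htel, h0, hK]
    ring
  rw [hsum]
  ring

theorem step_F (hc : ∀ e, 0 ≤ c e) (hε : 0 < ε) (hU : Ult K lev) {S : Finset ι}
    (hS : 2 ≤ S.card) (hd : ∀ a ∈ S, ∀ b ∈ S, a ≠ b → 1 ≤ lev a b) {YS : Finset (Sym2 V)}
    (hconn : ∀ i ∈ S, ∀ j ∈ S, conn G YS (t i) (t j)) (hgain : ec c YS + ε ≤ mu lev K ε S)
    (Y : Finset (Sym2 V)) :
    ∃ Y', Fv G c t K ε lev Y' ≤ Fv G c t K ε (lowr lev S) Y + ε * ((S.card : ℝ) - 2) := by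
  classical
  have hSne : S.Nonempty := Finset.card_pos.mp (by omega)
  set E : ℕ → ι → ι → Prop := fun l => pl lev l ⊔ py G t Y with hE
  set X : ℕ → ι → ι → Prop := fun l => ps S lev (l + 1) with hX
  set A : ι → ι → Prop := pall S with hA
  -- the two values of the completion
  have hlow : ∀ l, ncl (pl (lowr lev S) l ⊔ py G t Y) = ncl (E l ⊔ X l) := by
    intro l
    rw [ncl_lowr hU S l (py G t Y)]
    have : pl lev l ⊔ ps S lev (l + 1) ⊔ py G t Y = E l ⊔ X l := by
      rw [hE, hX]; exact sup_right_comm _ _ _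
    rw [this]
  have hEX : ∀ l, ncl (E l ⊔ X l) ≤ ncl (E l) := by
    intro l
    exact ncl_mono fun a b hab => Relation.EqvGen.rel a b (Or.inl hab)
  have hEA : ∀ l, ncl (E l ⊔ A) ≤ ncl (E l) := by
    intro l
    exact ncl_mono fun a b hab => Relation.EqvGen.rel a b (Or.inl hab)
  -- r l ≤ a l
  have hra : ∀ l, ncl (E l) + kap lev (l + 1) S ≤ ncl (E l ⊔ X l) + kap lev l S := by
    intro l
    have h1 := ncl_submod (r := pl lev l) (r' := E l)
      (fun a b hab => Relation.EqvGen.rel a b (Or.inl hab)) (X l)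
    have h2 := ncl_pl hU l
    have h3 := ncl_ps hU S l
    have h3' : ncl (pl lev l ⊔ X l) + kap lev l S = kap lev l univ + kap lev (l + 1) S := h3
    omega
  have h0 : kap lev 0 S = S.card := kap_zero hU hd
  have hK : kap lev K S = 1 := kap_top hU hSne
  have htel : ∑ l ∈ range K, ((kap lev l S : ℝ) - (kap lev (l + 1) S : ℝ)) = (S.card : ℝ) - 1 := by
    have h := Finset.sum_range_sub (fun l => (kap lev l S : ℝ)) K
    have h' : ∑ l ∈ range K, ((kap lev l S : ℝ) - (kap lev (l + 1) S : ℝ)) =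
        - ∑ l ∈ range K, ((kap lev (l + 1) S : ℝ) - (kap lev l S : ℝ)) := by
      rw [← Finset.sum_neg_distrib]
      exact Finset.sum_congr rfl fun l _ => by ring
    rw [h', h, h0, hK]
    push_cast
    ring
  set r : ℕ → ℝ := fun l => (ncl (E l) : ℝ) - (ncl (E l ⊔ X l) : ℝ) with hr
  have hrle : ∀ l, r l ≤ (kap lev l S : ℝ) - (kap lev (l + 1) S : ℝ) := by
    intro l
    have h : (ncl (E l) : ℝ) + (kap lev (l + 1) S : ℝ) ≤
        (ncl (E l ⊔ X l) : ℝ) + (kap lev l S : ℝ) := by exact_mod_cast hra l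
    simp only [hr]
    linarith
  have hF : Fv G c t K ε lev Y = Fv G c t K ε (lowr lev S) Y + ε * ∑ l ∈ range K, r l := by
    have e1 : Fv G c t K ε (lowr lev S) Y = ec c Y +
        ε * ∑ l ∈ range K, ((ncl (E l ⊔ X l) : ℝ) - 1) := by
      unfold Fv
      congr 2
      exact Finset.sum_congr rfl fun l _ => by rw [hlow l]
    have e2 : Fv G c t K ε lev Y = ec c Y + ε * ∑ l ∈ range K, ((ncl (E l) : ℝ) - 1) := rfl
    have e3 : ∑ l ∈ range K, ((ncl (E l) : ℝ) - 1) =
        ∑ l ∈ range K, ((ncl (E l ⊔ X l) : ℝ) - 1) + ∑ l ∈ range K, r l := by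
      rw [← Finset.sum_add_distrib]
      exact Finset.sum_congr rfl fun l _ => by simp only [hr]; ring
    rw [e1, e2, e3]
    ring
  by_cases hcase : ∑ l ∈ range K, r l ≤ (S.card : ℝ) - 2
  · refine ⟨Y, ?_⟩
    rw [hF]
    have := mul_le_mul_of_nonneg_left hcase hε.le
    linarith
  · -- case 2
    have hcase' : (S.card : ℝ) - 2 < ∑ l ∈ range K, r l := not_le.mp hcase
    -- integrality
    have hint : (S.card : ℝ) - 1 ≤ ∑ l ∈ range K, r l := by
      have e : ∑ l ∈ range K, r l =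
          ((∑ l ∈ range K, ((ncl (E l) : ℤ) - (ncl (E l ⊔ X l) : ℤ)) : ℤ) : ℝ) := by
        push_cast
        rfl
      rw [e] at hcase' ⊢
      have h1 : ((S.card : ℤ) - 2 : ℤ) <
          ∑ l ∈ range K, ((ncl (E l) : ℤ) - (ncl (E l ⊔ X l) : ℤ)) := by
        exact_mod_cast hcase'
      have h2 : ((S.card : ℤ) - 1 : ℤ) ≤
          ∑ l ∈ range K, ((ncl (E l) : ℤ) - (ncl (E l ⊔ X l) : ℤ)) := by omega
      exact_mod_cast h2
    have hreq : ∀ l ∈ range K, r l = (kap lev l S : ℝ) - (kap lev (l + 1) S : ℝ) := by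
      refine (Finset.sum_eq_sum_iff_of_le fun l _ => hrle l).mp ?_
      refine le_antisymm (Finset.sum_le_sum fun l _ => hrle l) ?_
      rw [htel]
      exact hint
    -- R l
    have hR : ∀ n ≤ K, (kap lev (K - n) S : ℝ) - 1 ≤
        (ncl (E (K - n)) : ℝ) - (ncl (E (K - n) ⊔ A) : ℝ) := by
      intro n
      induction n with
      | zero =>
        intro _
        have h : (ncl (E K ⊔ A) : ℝ) ≤ (ncl (E K) : ℝ) := by exact_mod_cast hEA K
        simp only [Nat.sub_zero, hK]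
        push_cast
        linarith
      | succ n ih =>
        intro hn
        have ih' := ih (by omega)
        obtain ⟨l, hl⟩ : ∃ l, l = K - (n + 1) := ⟨_, rfl⟩
        have hl1 : K - n = l + 1 := by omega
        have hlK : l < K := by omega
        rw [hl1] at ih'
        rw [← hl]
        have hs := ncl_submod (r := E l ⊔ X l) (r' := E (l + 1)) (by
          intro a b hab
          rcases hab with hab | hab
          · rcases hab with hab | hab
            · exact Relation.EqvGen.rel a b (Or.inl (le_trans hab (Nat.le_succ l)))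
            · exact Relation.EqvGen.rel a b (Or.inr hab)
          · exact Relation.EqvGen.rel a b (Or.inl hab.2.2)) A
        have hXA : E l ⊔ X l ⊔ A = E l ⊔ A := by
          have : X l ≤ A := fun a b hab => ⟨hab.1, hab.2.1⟩
          rw [sup_assoc, sup_eq_right.mpr this]
        rw [hXA] at hs
        have hs' : (ncl (E (l + 1)) : ℝ) + (ncl (E l ⊔ A) : ℝ) ≤
            (ncl (E l ⊔ X l) : ℝ) + (ncl (E (l + 1) ⊔ A) : ℝ) := by exact_mod_cast hs
        have hrl := hreq l (Finset.mem_range.mpr hlK)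
        simp only [hr] at hrl
        linarith
    have hR' : ∀ l ∈ range K, (kap lev l S : ℝ) - 1 ≤
        (ncl (E l) : ℝ) - (ncl (E l ⊔ A) : ℝ) := by
      intro l hl
      have hl' := Finset.mem_range.mp hl
      have h := hR (K - l) (by omega)
      rwa [show K - (K - l) = l by omega] at h
    refine ⟨Y ∪ YS, ?_⟩
    have hncl : ∀ l, ncl (pl lev l ⊔ py G t (Y ∪ YS)) ≤ ncl (E l ⊔ A) := by
      intro l
      refine ncl_mono fun a b hab => ?_
      rcases hab with hab | hab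
      · rcases hab with hab | hab
        · exact Relation.EqvGen.rel a b (Or.inl hab)
        · obtain ⟨w, hw⟩ := hab
          exact Relation.EqvGen.rel a b
            (Or.inr ⟨w, fun e he => Finset.mem_union_left _ (hw e he)⟩)
      · obtain ⟨w, hw⟩ := hconn a hab.1 b hab.2
        exact Relation.EqvGen.rel a b
          (Or.inr ⟨w, fun e he => Finset.mem_union_right _ (hw e he)⟩)
    have hec : ec c (Y ∪ YS) ≤ ec c Y + ec c YS := by
      unfold ec
      have h1 := Finset.sum_union_inter (s₁ := Y) (s₂ := YS) (f := c)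
      have h2 : 0 ≤ ∑ e ∈ Y ∩ YS, c e := Finset.sum_nonneg fun e _ => hc e
      linarith
    have hsum : ∑ l ∈ range K, ((ncl (pl lev l ⊔ py G t (Y ∪ YS)) : ℝ) - 1) ≤
        ∑ l ∈ range K, ((ncl (E l) : ℝ) - 1) - ∑ l ∈ range K, ((kap lev l S : ℝ) - 1) := by
      rw [← Finset.sum_sub_distrib]
      refine Finset.sum_le_sum fun l hl => ?_
      have h1 : (ncl (pl lev l ⊔ py G t (Y ∪ YS)) : ℝ) ≤ (ncl (E l ⊔ A) : ℝ) := by
        exact_mod_cast hncl l
      have h2 := hR' l hl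
      linarith
    have hmu : mu lev K ε S = ε * ∑ l ∈ range K, ((kap lev l S : ℝ) - 1) := rfl
    have e2 : Fv G c t K ε lev Y = ec c Y + ε * ∑ l ∈ range K, ((ncl (E l) : ℝ) - 1) := rfl
    have e4 : Fv G c t K ε lev (Y ∪ YS) = ec c (Y ∪ YS) +
        ε * ∑ l ∈ range K, ((ncl (pl lev l ⊔ py G t (Y ∪ YS)) : ℝ) - 1) := rfl
    have e5 : ∑ l ∈ range K, r l = (S.card : ℝ) - 1 := by
      rw [Finset.sum_congr rfl hreq, htel]
    rw [e5] at hF
    have hmul := mul_le_mul_of_nonneg_left hsum hε.le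
    rw [mul_sub] at hmul
    rw [e4]
    rw [hmu] at hgain
    rw [e2] at hF
    linarith

end BcrR
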